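import Pool.Agent.Y280.HC.Gen
/-!
# Independence of hypercyclic orbits with respect to compactly supported measures

Let `(T_t)` be a strongly continuous semigroup on a real or complex Banach space. The orbit of a
hypercyclic vector `z` satisfies no relation `∫ T_s z dμ(s) = 0` with a nonzero compactly supported
(real or complex) measure `μ` on `[0,∞)`; in particular it is linearly independent. More generally
this holds for every cyclic vector as soon as the semigroup is not nilpotent and its adjoint has no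
eigenvector.
-/
set_option autoImplicit false
open MeasureTheory Set

namespace Pool.Agent.Results.MP_84e5ad_an.MeasureIndependence

/-- There is no nonzero compactly supported measure `μ = h dν` on `[0,∞)` with `∫ T_s z dμ(s) = 0`. -/
def NoMeasureRelation {𝕜 : Type*} [RCLike 𝕜] {X : Type*} [NormedAddCommGroup X] [NormedSpace 𝕜 X]
    [NormedSpace ℝ X] (T : ℝ → X →L[𝕜] X) (z : X) : Prop :=
  ∀ (ν : Measure ℝ) [IsFiniteMeasure ν] (a : ℝ), (∀ᵐ s ∂ν, s ∈ Icc 0 a) →
    ∀ h : ℝ → 𝕜, Integrable h ν → ∫ s, h s • T s z ∂ν = 0 → ∀ᵐ s ∂ν, h s = 0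

/-- The adjoint of the semigroup has no eigenvector: there is no nonzero continuous additive map
`ψ : X → ℂ` with `ψ (T_t x) = exp (l t) ψ x` for all `t ≥ 0` and all `x`. -/
def NoEigenfunctional {𝕜 : Type*} [RCLike 𝕜] {X : Type*} [NormedAddCommGroup X] [NormedSpace 𝕜 X]
    (T : ℝ → X →L[𝕜] X) : Prop :=
  ∀ (l : ℂ) (ψ : X →+ ℂ), Continuous ψ →
    (∀ t : ℝ, 0 ≤ t → ∀ x, ψ (T t x) = Complex.exp (l * t) * ψ x) → ψ = 0

section

variable {𝕜 : Type*} [RCLike 𝕜] {X : Type*} [NormedAddCommGroup X] [NormedSpace 𝕜 X]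

/-- No relation with measures implies linear independence. -/
theorem NoMeasureRelation.linearIndependent [NormedSpace ℝ X] [CompleteSpace X] {T : ℝ → X →L[𝕜] X} {z : X}
    (h : NoMeasureRelation T z) : LinearIndependent 𝕜 (fun t : {t : ℝ // 0 ≤ t} => T t z) := by
  classical
  rw [linearIndependent_iff']
  intro s g hsum i hi
  let ν : Measure ℝ := ∑ j ∈ s, Measure.dirac (j : ℝ)
  have hfin : IsFiniteMeasure ν := by
    refine ⟨?_⟩
    simp only [ν, Measure.coe_finsetSum, Finset.sum_apply]
    exact ENNReal.sum_lt_top.2 fun j _ => measure_lt_top _ _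
  let f : ℝ → 𝕜 := fun t => if ht : 0 ≤ t then g ⟨t, ht⟩ else 0
  have hf : ∀ j : {t : ℝ // 0 ≤ t}, f j = g j := fun j => by
    simp only [f]
    rw [dif_pos j.2]
  obtain ⟨a, ha⟩ := (s.image (fun j : {t : ℝ // 0 ≤ t} => (j : ℝ))).bddAbove
  have hae : ∀ᵐ t ∂ν, t ∈ Icc 0 a := by
    rw [ae_iff]
    simp only [ν, Measure.coe_finsetSum, Finset.sum_apply]
    refine Finset.sum_eq_zero fun j hj => ?_
    have hja : (j : ℝ) ∈ Icc 0 a := ⟨j.2, ha (Finset.mem_coe.2 (Finset.mem_image_of_mem _ hj))⟩
    have : ∀ᵐ t ∂(Measure.dirac (j : ℝ)), t ∈ Icc 0 a := by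
      rw [ae_dirac_eq]
      exact hja
    exact ae_iff.1 this
  have hintf : Integrable f ν := by
    rw [integrable_finsetSum_measure]
    intro j _
    exact integrable_dirac (by simp)
  have hzero : ∫ t, f t • T t z ∂ν = 0 := by
    rw [← hsum, integral_finsetSum_measure]
    · refine Finset.sum_congr rfl fun j _ => ?_
      rw [integral_dirac, hf]
    · intro j _
      exact integrable_dirac (by simp)
  have h1 := h ν a hae f hintf hzero
  rw [ae_iff] at h1
  simp only [ν, Measure.coe_finsetSum, Finset.sum_apply] at h1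
  rw [Finset.sum_eq_zero_iff] at h1
  have h2 := h1 i hi
  have h3 : ∀ᵐ t ∂(Measure.dirac (i : ℝ)), f t = 0 := ae_iff.2 h2
  rw [ae_dirac_eq] at h3
  have h4 : f i = 0 := h3
  rw [hf] at h4
  exact h4

/-- A hypercyclic semigroup has no adjoint eigenvector. -/
theorem noEigenfunctional_of_dense {T : ℝ → X →L[𝕜] X} {z : X}
    (hz : Dense {x : X | ∃ t : ℝ, 0 ≤ t ∧ x = T t z}) : NoEigenfunctional T := by
  intro l ψ hψ hrel
  have h1 : ψ z = 0 := by
    refine Pool.Agent.Y280.HC.no_eigen_one hz hψ (map_zero ψ) ?_ l fun t ht => hrel t ht z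
    rw [two_smul, map_add, two_mul]
  ext x
  have hcl : IsClosed {x | ψ x = 0} := isClosed_eq hψ continuous_const
  have hsub : {x : X | ∃ t : ℝ, 0 ≤ t ∧ x = T t z} ⊆ {x | ψ x = 0} := by
    rintro _ ⟨t, ht, rfl⟩
    show ψ (T t z) = 0
    rw [hrel t ht, h1, mul_zero]
  exact closure_minimal hsub hcl (hz x)

end

/-- **Theorem.** Let `(T_t)` be a strongly continuous semigroup on the real or complex Banach space
`X ≠ 0`. The orbit of every hypercyclic vector satisfies no relation with a nonzero compactly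
supported measure, and is therefore linearly independent. The same holds for every cyclic vector if
the semigroup is not nilpotent and its adjoint has no eigenvector. -/
theorem result :
    ∀ (𝕜 : Type*) [RCLike 𝕜] (X : Type*) [NormedAddCommGroup X] [NormedSpace 𝕜 X]
      [NormedSpace ℝ X] [CompleteSpace X] [Nontrivial X] (T : ℝ → X →L[𝕜] X),
      T 0 = ContinuousLinearMap.id 𝕜 X →
      (∀ s t : ℝ, 0 ≤ s → 0 ≤ t → T (s + t) = (T s).comp (T t)) →
      (∀ x : X, ContinuousOn (fun t => T t x) (Set.Ici 0)) →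
      (∀ z : X, Dense {x : X | ∃ t : ℝ, 0 ≤ t ∧ x = T t z} →
        NoMeasureRelation T z ∧ LinearIndependent 𝕜 (fun t : {t : ℝ // 0 ≤ t} => T t z)) ∧
      (NoEigenfunctional T → (∀ t : ℝ, 0 ≤ t → T t ≠ 0) →
        ∀ z : X, Dense (Submodule.span 𝕜 {x : X | ∃ t : ℝ, 0 ≤ t ∧ x = T t z} : Set X) →
          NoMeasureRelation T z ∧ LinearIndependent 𝕜 (fun t : {t : ℝ // 0 ≤ t} => T t z)) := by
  intro 𝕜 _ X _ _ _ _ _ T hT0 hTadd hTc
  -- continuous version on the whole line
  let T' : ℝ → X →L[𝕜] X := fun t => T |t|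
  have hT'eq : ∀ t, 0 ≤ t → T' t = T t := by
    intro t ht
    simp only [T', abs_of_nonneg ht]
  have hT'add : ∀ s t : ℝ, 0 ≤ s → 0 ≤ t → T' (s + t) = (T' s).comp (T' t) := by
    intro s t hs ht
    rw [hT'eq s hs, hT'eq t ht, hT'eq (s + t) (add_nonneg hs ht), hTadd s t hs ht]
  have hT'c : ∀ x, Continuous (fun t => T' t x) := by
    intro x
    exact (hTc x).comp_continuous continuous_abs (fun t => abs_nonneg t)
  have horb : ∀ z, {x : X | ∃ t : ℝ, 0 ≤ t ∧ x = T' t z} = {x : X | ∃ t : ℝ, 0 ≤ t ∧ x = T t z} := by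
    intro z
    ext x
    constructor
    · rintro ⟨t, ht, h⟩
      exact ⟨t, ht, by rw [h, hT'eq t ht]⟩
    · rintro ⟨t, ht, h⟩
      exact ⟨t, ht, by rw [h, hT'eq t ht]⟩
  have hgen : NoEigenfunctional T → (∀ t : ℝ, 0 ≤ t → T t ≠ 0) →
      ∀ z : X, Dense (Submodule.span 𝕜 {x : X | ∃ t : ℝ, 0 ≤ t ∧ x = T t z} : Set X) →
        NoMeasureRelation T z := by
    intro hne hnil z hz ν _ a hν h hh hzero
    refine Pool.Agent.Y280.HC.measure_independent hT'c hν hh hT'add ?_ ?_ (z := z) ?_ ?_
    · intro l ψ hψ hrel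
      refine hne l ψ hψ fun t ht x => ?_
      have := hrel t ht x
      rwa [hT'eq t ht] at this
    · intro t ht
      rw [hT'eq t ht]
      exact hnil t ht
    · rw [horb]
      exact Submodule.dense_iff_topologicalClosure_eq_top.1 hz
    · rw [← hzero]
      refine integral_congr_ae ?_
      filter_upwards [hν] with s hs
      rw [hT'eq s hs.1]
  refine ⟨fun z hz => ?_, fun hne hnil z hz => ?_⟩
  · have h1 : NoMeasureRelation T z := by
      refine hgen (noEigenfunctional_of_dense hz) ?_ z ?_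
      · intro t ht h0
        obtain ⟨x0, hx0⟩ := exists_ne (0 : X)
        have hz' : Dense {x : X | ∃ t : ℝ, 0 ≤ t ∧ x = T' t z} := by rwa [horb]
        have h2 := Pool.Agent.Results.MP_84e5ad_an.LinIndepOrbit.tail_dense hT'c hz'
          (⊥ : Submodule 𝕜 X) (by simp) t (by
            intro s hs
            rw [hT'eq s (ht.trans hs)]
            have h3 : T s = (T (s - t)).comp (T t) := by
              rw [← hTadd _ t (sub_nonneg.2 hs) ht, sub_add_cancel]
            rw [h3, h0]
            simp) x0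
        exact hx0 (by simpa using h2)
      · exact hz.mono Submodule.subset_span
    exact ⟨h1, h1.linearIndependent⟩
  · have h1 := hgen hne hnil z hz
    exact ⟨h1, h1.linearIndependent⟩

end Pool.Agent.Results.MP_84e5ad_an.MeasureIndependence
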